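import Pool.Agent.Helper32.CL.St3

/-!
# Project CL: module OD (the window lemma)
-/

set_option autoImplicit false

namespace Pool.Agent.Helper78.CL

open Helper32.CL Helper35.PI Helper35.PI2 Pool.Agent.Helper35.CL
open scoped ContDiff Manifold Topology ENNReal BigOperators
open MeasureTheory Set Filter

theorem hOD : StOD := by
  intro K C hK e g e' he hg hder hbd L ε hL hε
  obtain ⟨K', hK'⟩ := exists_nat_ge K
  have hL0 : 0 < (2 * L) ^ K' := by positivity
  obtain ⟨ε₁, hε0, hεa, hεb⟩ : ∃ ε₁ : ℝ, 0 < ε₁ ∧ (4 + K) * ε₁ ≤ ε ∧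
      3 * ε₁ * (2 * L) ^ K' < 1 / 16 := by
    refine ⟨min (ε / (4 + K)) (1 / (64 * (2 * L) ^ K')), lt_min (by positivity) (by positivity),
      ?_, ?_⟩
    · calc (4 + K) * min (ε / (4 + K)) (1 / (64 * (2 * L) ^ K')) ≤ (4 + K) * (ε / (4 + K)) := by
            gcongr
            exact min_le_left _ _
        _ = ε := by field_simp
    · calc 3 * min (ε / (4 + K)) (1 / (64 * (2 * L) ^ K')) * (2 * L) ^ K'
          ≤ 3 * (1 / (64 * (2 * L) ^ K')) * (2 * L) ^ K' := by
            gcongr
            exact min_le_right _ _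
        _ = 3 / 64 := by field_simp
        _ < 1 / 16 := by norm_num
  have hc1 : ContinuousOn (fun t => e t / (-t)) (Iio 0) := by
    refine he.div continuousOn_id.neg (fun t ht => ?_)
    have h1 : t < 0 := ht
    simp only [ne_eq, neg_eq_zero]
    exact h1.ne
  have hsub : ∀ a b : ℝ, a < 0 → b < 0 → uIcc a b ⊆ Iio (0 : ℝ) := by
    intro a b ha hb x hx
    exact hx.2.trans_lt (max_lt ha hb)
  have hi1 : ∀ a b : ℝ, a < 0 → b < 0 →
      IntervalIntegrable (fun t => e t / (-t)) volume a b := fun a b ha hb =>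
    (hc1.mono (hsub a b ha hb)).intervalIntegrable
  have hi2 : ∀ a b : ℝ, a < 0 → b < 0 → IntervalIntegrable g volume a b := fun a b ha hb =>
    (hg.mono (hsub a b ha hb)).intervalIntegrable
  have hnn : ∀ t ≤ -1, 0 ≤ e t / (-t) := fun t ht =>
    div_nonneg (hder t ht).1 (by linarith)
  -- step 1
  obtain ⟨T1, hT1, hI⟩ : ∃ T1 : ℝ, 1 ≤ T1 ∧ ∀ a b, T1 ≤ a → a ≤ b →
      ∫ t in (-b)..(-a), e t / (-t) ≤ ε₁ := by
    obtain ⟨J, hJ⟩ : ∃ J : ℝ → ℝ, J = fun T => ∫ t in (-T)..(-1), e t / (-t) := ⟨_, rfl⟩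
    have hbdd : BddAbove (J '' Ici 1) := by
      refine ⟨C, ?_⟩
      rintro _ ⟨T, hT, rfl⟩
      rw [hJ]
      exact hbd T hT
    have hne : (J '' Ici 1).Nonempty := ⟨_, 1, mem_Ici.2 le_rfl, rfl⟩
    obtain ⟨_, ⟨T1, hT1, rfl⟩, h1⟩ := exists_lt_of_lt_csSup hne
      (show sSup (J '' Ici 1) - ε₁ < sSup (J '' Ici 1) by linarith)
    have hT1' : 1 ≤ T1 := hT1
    refine ⟨T1, hT1', fun a b ha hab => ?_⟩
    have hadd := intervalIntegral.integral_add_adjacent_intervals
      (hi1 (-b) (-a) (by linarith) (by linarith)) (hi1 (-a) (-1) (by linarith) (by linarith))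
    have hJb : J b ≤ sSup (J '' Ici 1) := le_csSup hbdd ⟨b, by
      rw [mem_Ici]; linarith, rfl⟩
    have hJa : J T1 ≤ J a := by
      rw [hJ]
      refine intervalIntegral.integral_mono_interval (by linarith) (by linarith) le_rfl ?_
        (hi1 (-a) (-1) (by linarith) (by linarith))
      refine (ae_restrict_iff' measurableSet_Ioc).2 (Eventually.of_forall fun t ht => ?_)
      exact hnn t ht.2
    have eJb : J b = ∫ t in (-b)..(-1), e t / (-t) := by rw [hJ]
    have eJa : J a = ∫ t in (-a)..(-1), e t / (-t) := by rw [hJ]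
    rw [eJb] at hJb
    rw [eJa] at hJa
    linarith
  refine ⟨T1, hT1, fun T hT => ?_⟩
  have hT0 : 0 < T := by linarith
  have hTL : T ≤ L * T := by nlinarith
  -- step 2
  obtain ⟨s, hs1, hs2, hs3⟩ : ∃ s, -(2 * (L * T)) ≤ s ∧ s ≤ -(L * T) ∧ e s ≤ 3 * ε₁ := by
    by_contra hcon
    push Not at hcon
    have h1 := hI (L * T) (2 * (L * T)) (by linarith) (by linarith)
    have h2 : ∫ t in (-(2 * (L * T)))..(-(L * T)), (3 * ε₁ / (2 * (L * T))) ≤
        ∫ t in (-(2 * (L * T)))..(-(L * T)), e t / (-t) := by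
      refine intervalIntegral.integral_mono_on (by linarith) intervalIntegrable_const
        (hi1 _ _ (by linarith) (by linarith)) (fun t ht => ?_)
      have h3 := hcon t ht.1 ht.2
      have h4 : 0 < -t := by linarith [ht.2]
      have h5 : -t ≤ 2 * (L * T) := by linarith [ht.1]
      exact div_le_div₀ (hder t (by linarith [ht.2])).1 h3.le h4 h5
    rw [intervalIntegral.integral_const, smul_eq_mul] at h2
    have h6 : (-(L * T) - -(2 * (L * T))) * (3 * ε₁ / (2 * (L * T))) = 3 / 2 * ε₁ := by
      have : L * T ≠ 0 := by positivity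
      field_simp
      ring
    rw [h6] at h2
    linarith
  have hs0 : s ≤ -1 := by linarith
  -- step 3
  have hsmall : ∀ t, s ≤ t → t ≤ -T → e t ≤ 1 / 16 := by
    by_contra hcon
    push Not at hcon
    obtain ⟨t₂, ht1, ht2, ht3⟩ := hcon
    obtain ⟨S, hS⟩ : ∃ S : Set ℝ, S = Icc s t₂ ∩ e ⁻¹' Ici (1 / 16) := ⟨_, rfl⟩
    have hScl : IsClosed S := by
      rw [hS]
      refine ContinuousOn.preimage_isClosed_of_isClosed (he.mono ?_) isClosed_Icc isClosed_Ici
      intro x hx
      have : x ≤ t₂ := hx.2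
      have h : x < 0 := by linarith
      exact h
    have hSne : S.Nonempty := ⟨t₂, by
      rw [hS]
      exact ⟨⟨ht1, le_rfl⟩, ht3.le⟩⟩
    have hSbd : BddBelow S := ⟨s, by
      intro x hx
      rw [hS] at hx
      exact hx.1.1⟩
    have hmem := hScl.csInf_mem hSne hSbd
    obtain ⟨t₁, ht₁⟩ : ∃ t₁, t₁ = sInf S := ⟨_, rfl⟩
    rw [← ht₁] at hmem
    have hmin : ∀ x, x ∈ S → t₁ ≤ x := fun x hx => by
      rw [ht₁]
      exact csInf_le hSbd hx
    rw [hS] at hmem hmin
    obtain ⟨⟨m1, m2⟩, m3⟩ := hmem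
    have m3' : 1 / 16 ≤ e t₁ := m3
    have hlt : ∀ t, s ≤ t → t < t₁ → e t ≤ 1 / 16 := by
      intro t h1 h2
      by_contra h3
      push Not at h3
      have := hmin t ⟨⟨h1, by linarith⟩, h3.le⟩
      linarith
    have hanti : AntitoneOn (fun t => e t * (-t) ^ K') (Icc s t₁) := by
      have hd : ∀ t ≤ -1, HasDerivAt (fun t => e t * (-t) ^ K')
          (e' t * (-t) ^ K' + e t * (K' * (-t) ^ (K' - 1) * (-1))) t := by
        intro t ht
        have h1 : HasDerivAt (fun t : ℝ => -t) (-1) t := (hasDerivAt_id t).neg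
        exact (hder t ht).2.2.1.mul (h1.pow K')
      refine antitoneOn_of_deriv_nonpos (convex_Icc _ _) ?_ ?_ ?_
      · intro t ht
        exact (hd t (by linarith [ht.2])).continuousAt.continuousWithinAt
      · intro t ht
        rw [interior_Icc] at ht
        exact (hd t (by linarith [ht.2])).differentiableAt.differentiableWithinAt
      · intro t ht
        rw [interior_Icc] at ht
        have ht' : t ≤ -1 := by linarith [ht.2]
        rw [(hd t ht').deriv]
        obtain ⟨d1, d2, d3, d4⟩ := hder t ht'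
        have d5 := d4 (hlt t ht.1.le ht.2)
        have hp : 0 < -t := by linarith
        rcases Nat.eq_zero_or_pos K' with h0 | h0
        · have hKz : K = 0 := by
            rw [h0] at hK'
            push_cast at hK'
            linarith
          rw [hKz, zero_mul, add_zero] at d5
          have e0 : e' t * (-t) ^ K' + e t * (K' * (-t) ^ (K' - 1) * (-1)) = e' t := by
            rw [h0]
            simp
          rw [e0]
          linarith
        · obtain ⟨j, hj⟩ := Nat.exists_eq_add_of_le' h0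
          have e1 : (-t) ^ K' = (-t) * (-t) ^ (K' - 1) := by
            rw [hj, Nat.add_sub_cancel, pow_succ]
            ring
          have hq : 0 < (-t) ^ (K' - 1) := pow_pos hp _
          have e2 : e' t * (-t) ^ K' + e t * (K' * (-t) ^ (K' - 1) * (-1)) =
              (e' t * (-t) - K' * e t) * (-t) ^ (K' - 1) := by
            rw [e1]
            ring
          rw [e2]
          apply mul_nonpos_of_nonpos_of_nonneg _ hq.le
          have d6 : e' t * (-t) ≤ (-g t + K * (e t / (-t))) * (-t) := by gcongr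
          have d7' : ∀ w : ℝ, 0 < w → (-g t + K * (e t / w)) * w = -(g t * w) + K * e t := by
            intro w hw
            field_simp
          have d7 := d7' (-t) hp
          have d8 : 0 ≤ g t * (-t) := mul_nonneg d2 hp.le
          have d9 : K * e t ≤ K' * e t := by gcongr
          linarith
    have h1 := hanti ⟨le_rfl, m1⟩ ⟨m1, le_rfl⟩ m1
    simp only at h1
    have hp : T ≤ -t₁ := by linarith
    have h2 : (-s) ^ K' ≤ (2 * L) ^ K' * (-t₁) ^ K' := by
      rw [← mul_pow]
      apply pow_le_pow_left₀ (by linarith)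
      nlinarith
    have h3 : e t₁ * (-t₁) ^ K' ≤ (3 * ε₁ * (2 * L) ^ K') * (-t₁) ^ K' := by
      calc e t₁ * (-t₁) ^ K' ≤ e s * (-s) ^ K' := h1
        _ ≤ (3 * ε₁) * ((2 * L) ^ K' * (-t₁) ^ K') := by
            have := (hder s hs0).1
            have h4 : 0 ≤ (-s) ^ K' := pow_nonneg (by linarith) _
            exact mul_le_mul hs3 h2 h4 (by positivity)
        _ = (3 * ε₁ * (2 * L) ^ K') * (-t₁) ^ K' := by ring
    have h4 : e t₁ ≤ 3 * ε₁ * (2 * L) ^ K' :=
      le_of_mul_le_mul_right h3 (pow_pos (by linarith) _)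
    linarith
  refine ⟨fun t ht => hsmall t (by linarith [ht.1]) ht.2, ?_⟩
  -- step 4
  have hIs : ∫ t in s..(-T), e t / (-t) ≤ ε₁ := by
    have := hI T (-s) hT (by linarith)
    rwa [neg_neg] at this
  have hc2 : ContinuousOn (fun t => g t - K * (e t / (-t))) (Iio 0) :=
    hg.sub (continuousOn_const.mul hc1)
  have hi3 : ∀ a b : ℝ, a < 0 → b < 0 →
      IntervalIntegrable (fun t => g t - K * (e t / (-t))) volume a b := fun a b ha hb =>
    (hc2.mono (hsub a b ha hb)).intervalIntegrable
  have hdH : ∀ t, t < 0 → HasDerivAt (fun t => ∫ x in s..t, (g x - K * (e x / (-x))))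
      (g t - K * (e t / (-t))) t := by
    intro t ht
    refine intervalIntegral.integral_hasDerivAt_right (hi3 s t (by linarith) ht) ?_ ?_
    · exact hc2.stronglyMeasurableAtFilter isOpen_Iio t ht
    · exact hc2.continuousAt (isOpen_Iio.mem_nhds ht)
  have hanti : AntitoneOn (fun t => e t + ∫ x in s..t, (g x - K * (e x / (-x))))
      (Icc s (-T)) := by
    have hd : ∀ t ≤ -1, HasDerivAt (fun t => e t + ∫ x in s..t, (g x - K * (e x / (-x))))
        (e' t + (g t - K * (e t / (-t)))) t := fun t ht =>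
      (hder t ht).2.2.1.add (hdH t (by linarith))
    refine antitoneOn_of_deriv_nonpos (convex_Icc _ _) ?_ ?_ ?_
    · intro t ht
      exact (hd t (by linarith [ht.2])).continuousAt.continuousWithinAt
    · intro t ht
      rw [interior_Icc] at ht
      exact (hd t (by linarith [ht.2])).differentiableAt.differentiableWithinAt
    · intro t ht
      rw [interior_Icc] at ht
      rw [(hd t (by linarith [ht.2])).deriv]
      have := (hder t (by linarith [ht.2])).2.2.2 (hsmall t ht.1.le ht.2.le)
      linarith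
  have hsT : s ≤ -T := by linarith
  have h1 := hanti ⟨le_rfl, hsT⟩ ⟨hsT, le_rfl⟩ hsT
  simp only [intervalIntegral.integral_same, add_zero] at h1
  have hneg : -T < 0 := by linarith
  have hsneg : s < 0 := by linarith
  rw [intervalIntegral.integral_sub (hi2 s (-T) hsneg hneg)
    ((hi1 s (-T) hsneg hneg).const_mul K), intervalIntegral.integral_const_mul] at h1
  have h2 : 0 ≤ e (-T) := (hder (-T) (by linarith)).1
  have h3 : ∫ t in s..(-T), g t ≤ 3 * ε₁ + K * ε₁ := by
    have : K * ∫ t in s..(-T), e t / (-t) ≤ K * ε₁ := by gcongr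
    linarith
  have h4 : ∫ t in (-(L * T))..(-T), g t ≤ ∫ t in s..(-T), g t := by
    refine intervalIntegral.integral_mono_interval hs2 (by linarith) le_rfl ?_
      (hi2 s (-T) hsneg hneg)
    refine (ae_restrict_iff' measurableSet_Ioc).2 (Eventually.of_forall fun t ht => ?_)
    exact (hder t (by linarith [ht.2])).2.1
  have h5 : ∫ t in (-(L * T))..(-T), e t / (-t) ≤ ε₁ := hI T (L * T) hT hTL
  have hLneg : -(L * T) < 0 := by linarith
  rw [intervalIntegral.integral_add (hi2 _ _ hLneg hneg) (hi1 _ _ hLneg hneg)]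
  linarith

end Pool.Agent.Helper78.CL
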